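import Mathlib

-- merged part: Pool.Agent.Work.MP_2fb0b3_al.Affine
section
/-! A three-colouring of a finite vector space over a prime field that no nontrivial affine
permutation of odd order preserves. -/

namespace Pool.Agent.Work.MP_2fb0b3_al

lemma two_point {X : Type*} (σ : Equiv.Perm X) {k : ℕ} (hk : Odd k) (hσ : σ ^ k = 1)
    (P : X → Prop) (hP : ∀ y, P y → P (σ y)) (x z : X) (hx : P x)
    (h2 : ∀ y, P y → y = x ∨ y = z) : σ x = x := by
  by_contra hne
  have h1 : σ x = z := (h2 _ (hP _ hx)).resolve_left hne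
  have h3 : σ (σ x) = x := by
    rcases h2 _ (hP _ (hP _ hx)) with h | h
    · exact h
    · exact absurd (σ.injective (h.trans h1.symm)) hne
  obtain ⟨m, rfl⟩ := hk
  have h4 : ∀ m : ℕ, (σ ^ (2 * m)) x = x := by
    intro m
    induction m with
    | zero => simp
    | succ m ih =>
      rw [Nat.mul_succ, pow_add, Equiv.Perm.mul_apply, sq, Equiv.Perm.mul_apply, h3, ih]
  have h5 : (σ ^ (2 * m + 1)) x = σ x := by
    rw [pow_succ', Equiv.Perm.mul_apply, h4]
  rw [hσ] at h5
  exact hne h5.symm

variable {p d : ℕ}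

/-- The standard basis vectors. -/
def ee (i : Fin (d + 1)) : Fin (d + 1) → ZMod p := Pi.single i 1

/-- The first colour class. -/
def AA (v : Fin (d + 1) → ZMod p) : Prop := v = 0 ∨ v = ee 0

/-- The union of the first two colour classes. -/
def SS (v : Fin (d + 1) → ZMod p) : Prop :=
  v = 0 ∨ (∃ j, v = ee j) ∨ ∃ j k : Fin (d + 1), k.val = j.val + 1 ∧ v = ee j + ee k

open Classical in
/-- The colouring. -/
noncomputable def col (v : Fin (d + 1) → ZMod p) : Fin 3 :=
  if AA v then 0 else if SS v then 1 else 2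

lemma col_eq_zero {v : Fin (d + 1) → ZMod p} : col v = 0 ↔ AA v := by
  unfold col
  split_ifs with h1 h2 <;> simp [h1]

lemma col_ne_two {v : Fin (d + 1) → ZMod p} : col v ≠ 2 ↔ SS v := by
  unfold col
  split_ifs with h1 h2
  · have : SS v := by
      rcases h1 with h | h
      · exact Or.inl h
      · exact Or.inr (Or.inl ⟨0, h⟩)
    simp [this]
  · simp [h2]
  · simp [h2]

lemma ee_apply (i t : Fin (d + 1)) : (ee i : Fin (d + 1) → ZMod p) t = if t = i then 1 else 0 := by
  unfold ee
  rw [Pi.single_apply]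

lemma SS_supp {v : Fin (d + 1) → ZMod p} (h : SS v) :
    ∃ a b : ℕ, (b = a + 1 ∨ b = a) ∧ ∀ t : Fin (d + 1), v t ≠ 0 → t.val = a ∨ t.val = b := by
  rcases h with rfl | ⟨j, rfl⟩ | ⟨j, k, hjk, rfl⟩
  · exact ⟨0, 0, Or.inr rfl, fun t ht => absurd rfl ht⟩
  · refine ⟨j, j, Or.inr rfl, fun t ht => Or.inl ?_⟩
    rw [ee_apply] at ht
    by_contra h
    exact ht (if_neg fun h' => h (congrArg Fin.val h'))
  · refine ⟨j, k, Or.inl hjk, fun t ht => ?_⟩
    by_contra h
    rw [not_or] at h
    apply ht
    rw [Pi.add_apply, ee_apply, ee_apply, if_neg fun h' => h.1 (congrArg Fin.val h'),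
      if_neg fun h' => h.2 (congrArg Fin.val h'), add_zero]

theorem rigid [Fact p.Prime] (τ : Equiv.Perm (Fin (d + 1) → ZMod p)) {k : ℕ} (hk : Odd k)
    (hτ : τ ^ k = 1) (haff : ∀ v, ∃ v', ∀ w, τ (v + w) = v' + τ w)
    (hcol : ∀ v, col (τ v) = col v) (v : Fin (d + 1) → ZMod p) : τ v = v := by
  have hA : ∀ y, AA y → AA (τ y) := fun y hy => by
    rw [← col_eq_zero] at hy ⊢
    rw [hcol, hy]
  have hS : ∀ y, SS y → SS (τ y) := fun y hy => by
    rw [← col_ne_two] at hy ⊢
    rwa [hcol]
  have h0 : τ 0 = 0 := two_point τ hk hτ AA hA 0 (ee 0) (Or.inl rfl) fun y hy => hy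
  have he0 : τ (ee 0) = ee 0 :=
    two_point τ hk hτ AA hA (ee 0) 0 (Or.inr rfl) fun y hy => hy.symm
  have hadd : ∀ u w, τ (u + w) = τ u + τ w := by
    intro u w
    obtain ⟨v', hv'⟩ := haff u
    have := hv' 0
    rw [add_zero, h0, add_zero] at this
    rw [hv', this]
  let f : (Fin (d + 1) → ZMod p) →+ (Fin (d + 1) → ZMod p) := AddMonoidHom.mk' τ hadd
  have hf : ∀ y, f y = τ y := fun _ => rfl
  have hspan : ∀ i : ℕ, (∀ j : Fin (d + 1), j.val ≤ i → τ (ee j) = ee j) →
      ∀ y : Fin (d + 1) → ZMod p, (∀ j : Fin (d + 1), i < j.val → y j = 0) → τ y = y := by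
    intro i hi y hy
    have e : y = ∑ j, y j • ee j := by
      funext t
      simp [ee, Finset.sum_apply, Pi.single_apply]
    rw [← hf]
    conv_lhs => rw [e]
    conv_rhs => rw [e]
    rw [map_sum]
    refine Finset.sum_congr rfl fun j _ => ?_
    rw [ZMod.map_smul, hf]
    rcases le_or_gt j.val i with h | h
    · rw [hi j h]
    · rw [hy j h, zero_smul, zero_smul]
  have hall : ∀ i : ℕ, ∀ j : Fin (d + 1), j.val ≤ i → τ (ee j) = ee j := by
    intro i
    induction i with
    | zero =>
      intro j hj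
      have : j = 0 := Fin.ext (by simpa using hj)
      rw [this, he0]
    | succ i ih =>
      intro j hj
      rcases Nat.lt_or_eq_of_le hj with h | h
      · exact ih j (by omega)
      · have hi : i < d + 1 := by omega
        set i' : Fin (d + 1) := ⟨i, hi⟩ with hi'
        have hij : j ≠ i' := fun h' => by
          have := congrArg Fin.val h'
          simp only [hi'] at this
          omega
        refine two_point τ hk hτ
          (fun y => SS y ∧ SS (y + ee i') ∧ ∃ t : Fin (d + 1), i < t.val ∧ y t ≠ 0) ?_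
          (ee j) (ee i' + ee j) ⟨Or.inr (Or.inl ⟨j, rfl⟩), ?_, j, by omega, ?_⟩ ?_
        · rintro y ⟨h1, h2, h3⟩
          refine ⟨hS y h1, ?_, ?_⟩
          · have := hS _ h2
            rwa [hadd, ih i' le_rfl] at this
          · by_contra hno
            push Not at hno
            have h4 := τ.injective (hspan i ih (τ y) hno)
            obtain ⟨t, ht1, ht2⟩ := h3
            exact ht2 (by rw [← h4]; exact hno t ht1)
        · exact Or.inr (Or.inr ⟨i', j, h, add_comm _ _⟩)
        · rw [ee_apply, if_pos rfl]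
          exact one_ne_zero
        · rintro y ⟨h1, h2, t, ht1, ht2⟩
          obtain ⟨a, b, hab, hsupp⟩ := SS_supp h2
          rcases h1 with rfl | ⟨l, rfl⟩ | ⟨l, m, hlm, rfl⟩
          · exact absurd rfl ht2
          · left
            have htl : t = l := by
              by_contra h'
              exact ht2 (by rw [ee_apply, if_neg h'])
            subst htl
            have hti : t ≠ i' := fun h' => by
              have := congrArg Fin.val h'
              simp only [hi'] at this
              omega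
            have e1 := hsupp t (by
              rw [Pi.add_apply, ee_apply, ee_apply, if_pos rfl, if_neg hti, add_zero]
              exact one_ne_zero)
            have e2 := hsupp i' (by
              rw [Pi.add_apply, ee_apply, ee_apply, if_pos rfl, if_neg hti.symm, zero_add]
              exact one_ne_zero)
            simp only [hi'] at e2
            congr 1
            exact Fin.ext (by omega)
          · right
            have htl : t = l ∨ t = m := by
              by_contra h'
              rw [not_or] at h'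
              exact ht2 (by rw [Pi.add_apply, ee_apply, ee_apply, if_neg h'.1, if_neg h'.2, add_zero])
            have hm : i < m.val := by
              rcases htl with rfl | rfl <;> omega
            by_cases hl : l = i'
            · have hmj : m = j := by
                have := congrArg Fin.val hl
                simp only [hi'] at this
                exact Fin.ext (by omega)
              rw [hl, hmj]
            · exfalso
              have hl' : l.val ≠ i := fun h' => hl (Fin.ext h')
              have hlm' : l ≠ m := fun h' => by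
                have := congrArg Fin.val h'
                omega
              have hmi : m ≠ i' := fun h' => by
                have := congrArg Fin.val h'
                simp only [hi'] at this
                omega
              have e1 := hsupp l (by
                rw [Pi.add_apply, Pi.add_apply, ee_apply, ee_apply, ee_apply, if_pos rfl,
                  if_neg hlm', if_neg hl, add_zero, add_zero]
                exact one_ne_zero)
              have e2 := hsupp m (by
                rw [Pi.add_apply, Pi.add_apply, ee_apply, ee_apply, ee_apply, if_pos rfl,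
                  if_neg hlm'.symm, if_neg hmi, add_zero, zero_add]
                exact one_ne_zero)
              have e3 := hsupp i' (by
                rw [Pi.add_apply, Pi.add_apply, ee_apply, ee_apply, ee_apply, if_pos rfl,
                  if_neg (Ne.symm hl), if_neg hmi.symm, add_zero, zero_add]
                exact one_ne_zero)
              simp only [hi'] at e3
              omega
  exact hspan d (hall d) v fun j hj => by omega

/-- Number of points of a given colour. -/
noncomputable def cnt {X : Type*} (B : Set X) (c : X → Fin 3) (i : Fin 3) : ℕ :=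
  {x | x ∈ B ∧ c x = i}.ncard

lemma cnt_total {X : Type*} [Finite X] (c : X → Fin 3) :
    cnt Set.univ c 0 + cnt Set.univ c 1 + cnt Set.univ c 2 = Nat.card X := by
  unfold cnt
  rw [← Set.ncard_union_eq, ← Set.ncard_union_eq, ← Set.ncard_univ]
  · congr 1
    ext x
    simp only [Set.mem_univ, true_and, Set.mem_union, Set.mem_ofPred_eq, iff_true]
    generalize c x = i
    fin_cases i <;> simp
  · rw [Set.disjoint_left]
    rintro x (⟨-, h1⟩ | ⟨-, h1⟩) ⟨-, h2⟩ <;> rw [h1] at h2 <;> exact absurd h2 (by decide)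
  · rw [Set.disjoint_left]
    rintro x ⟨-, h1⟩ ⟨-, h2⟩
    rw [h1] at h2
    exact absurd h2 (by decide)

theorem col_counts [hp : Fact p.Prime] :
    ¬ (cnt Set.univ (col : (Fin (d + 1) → ZMod p) → Fin 3) 0 = cnt Set.univ (col (p := p) (d := d)) 1
      ∧ cnt Set.univ (col (p := p) (d := d)) 1 = cnt Set.univ (col (p := p) (d := d)) 2) := by
  rintro ⟨h1, h2⟩
  have h3 := cnt_total (col : (Fin (d + 1) → ZMod p) → Fin 3)
  have h4 : cnt Set.univ (col : (Fin (d + 1) → ZMod p) → Fin 3) 0 = 2 := by
    unfold cnt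
    have : {x : Fin (d + 1) → ZMod p | x ∈ Set.univ ∧ col x = 0} = {0, ee 0} := by
      ext x
      simp [col_eq_zero, AA]
    rw [this, Set.ncard_pair]
    intro h
    have := congrFun h 0
    rw [ee_apply, if_pos rfl] at this
    exact zero_ne_one this
  have h5 : Nat.card (Fin (d + 1) → ZMod p) = p ^ (d + 1) := by
    simp [Nat.card_eq_fintype_card]
  have h6 : p ^ (d + 1) = 6 := by omega
  have h7 : 2 ∣ p := Nat.prime_two.dvd_of_dvd_pow (by rw [h6]; norm_num)
  have h8 : 3 ∣ p := Nat.prime_three.dvd_of_dvd_pow (by rw [h6]; norm_num)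
  have h9 := (Nat.prime_dvd_prime_iff_eq Nat.prime_two hp.out).1 h7
  have h10 := (Nat.prime_dvd_prime_iff_eq Nat.prime_three hp.out).1 h8
  omega

end Pool.Agent.Work.MP_2fb0b3_al
end

-- merged part: Pool.Agent.Work.MP_2fb0b3_al.Main
section
/-! Every finite solvable permutation group has a three-colouring preserved by no nontrivial
element of odd order. -/

namespace Pool.Agent.Work.MP_2fb0b3_al

open MulAction

lemma exists_addEquiv_aux {K W : Type*} [Field K] [AddCommGroup W] [Module K W] [Finite W] :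
    ∃ n : ℕ, Nonempty ((Fin n → K) ≃+ W) := by
  have : Module.Finite K W := Module.Finite.of_finite
  exact ⟨_, ⟨(Module.finBasis K W).equivFun.symm.toAddEquiv⟩⟩

lemma exists_addEquiv {p : ℕ} [hp : Fact p.Prime] {W : Type*} [AddCommGroup W] [Finite W]
    (hW : ∀ v : W, p • v = 0) : ∃ n : ℕ, Nonempty ((Fin n → ZMod p) ≃+ W) :=
  @exists_addEquiv_aux (ZMod p) W _ _ (AddCommGroup.zmodModule hW) _

lemma coords {p : ℕ} [hp : Fact p.Prime] {H Ω : Type*} [CommGroup H] [Finite H] [MulAction H Ω]
    (hexp : ∀ h : H, h ^ p = 1) (x₀ : Ω) :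
    ∃ n : ℕ, ∃ β : (Fin n → ZMod p) → Ω, Function.Injective β ∧ Set.range β = orbit H x₀ ∧
      (∀ v, ∃ h : H, ∀ w, β (v + w) = h • β w) ∧ (∀ h : H, ∃ v, ∀ w, h • β w = β (v + w)) := by
  let V := H ⧸ stabilizer H x₀
  have hV : ∀ v : Additive V, p • v = 0 := by
    intro v
    obtain ⟨h, hh⟩ := QuotientGroup.mk_surjective (Additive.toMul v)
    have : (Additive.toMul v) ^ p = 1 := by
      rw [← hh, ← QuotientGroup.mk_pow, hexp, QuotientGroup.mk_one]
    exact this
  obtain ⟨n, ⟨ψ⟩⟩ := exists_addEquiv hV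
  have key : ∀ (h : H) (u : V), ofQuotientStabilizer H x₀ ((QuotientGroup.mk h : V) * u)
      = h • ofQuotientStabilizer H x₀ u := by
    intro h u
    obtain ⟨h', rfl⟩ := QuotientGroup.mk_surjective u
    rw [← QuotientGroup.mk_mul, ofQuotientStabilizer_mk, ofQuotientStabilizer_mk, mul_smul]
  refine ⟨_, fun v => ofQuotientStabilizer H x₀ (Additive.toMul (ψ v)), ?_, ?_, ?_, ?_⟩
  · exact (injective_ofQuotientStabilizer H x₀).comp (Additive.toMul.injective.comp ψ.injective)
  · ext x
    constructor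
    · rintro ⟨v, rfl⟩
      exact ofQuotientStabilizer_mem_orbit H x₀ _
    · rintro ⟨h, rfl⟩
      refine ⟨ψ.symm (Additive.ofMul (QuotientGroup.mk h : V)), ?_⟩
      simp only [AddEquiv.apply_symm_apply, toMul_ofMul]
      rfl
  · intro v
    obtain ⟨h, hh⟩ := QuotientGroup.mk_surjective (Additive.toMul (ψ v))
    refine ⟨h, fun w => ?_⟩
    simp only [map_add, toMul_add]
    rw [← hh, key]
  · intro h
    refine ⟨ψ.symm (Additive.ofMul (QuotientGroup.mk h : V)), fun w => ?_⟩
    simp only [map_add, AddEquiv.apply_symm_apply, toMul_add, toMul_ofMul]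
    rw [key]

lemma block {p : ℕ} [hp : Fact p.Prime] {H Ω : Type*} [Group H] [Finite H] [MulAction H Ω]
    (hcomm : ∀ a b : H, a * b = b * a) (hexp : ∀ h : H, h ^ p = 1) (x₀ : Ω) :
    ∃ c : Ω → Fin 3, ¬ (cnt (orbit H x₀) c 0 = cnt (orbit H x₀) c 1 ∧
        cnt (orbit H x₀) c 1 = cnt (orbit H x₀) c 2) ∧
      ∀ (σ : Equiv.Perm Ω) (k : ℕ), Odd k → σ ^ k = 1 →
        (∀ h : H, ∃ h' : H, ∀ x, σ (h • x) = h' • σ x) →
        (∀ x ∈ orbit H x₀, σ x ∈ orbit H x₀) → (∀ x ∈ orbit H x₀, c (σ x) = c x) →
        ∀ x ∈ orbit H x₀, σ x = x := by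
  let _ : CommGroup H := { ‹Group H› with mul_comm := hcomm }
  obtain ⟨n, β, hinj, hrange, h1, h2⟩ := coords (p := p) (H := H) hexp x₀
  rw [← hrange]
  rcases n with _ | d
  · refine ⟨fun _ => 0, ?_, ?_⟩
    · rintro ⟨h, -⟩
      have e0 : {x | x ∈ Set.range β ∧ (fun _ : Ω => (0 : Fin 3)) x = 0} = {β 0} := by
        ext x
        simp only [Set.mem_range, and_true, Set.mem_ofPred_eq, Set.mem_singleton_iff]
        constructor
        · rintro ⟨v, rfl⟩
          rw [Subsingleton.elim v 0]
        · rintro rfl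
          exact ⟨0, rfl⟩
      have e1 : {x | x ∈ Set.range β ∧ (fun _ : Ω => (0 : Fin 3)) x = 1} = ∅ := by
        ext x
        simp
      unfold cnt at h
      rw [e0, e1] at h
      simp at h
    · rintro σ k - - - hB - x ⟨v, rfl⟩
      obtain ⟨w, hw⟩ := hB _ ⟨v, rfl⟩
      rw [← hw, Subsingleton.elim w v]
  · have hleft : ∀ v, Function.invFun β (β v) = v := Function.leftInverse_invFun hinj
    refine ⟨fun x => col (Function.invFun β x), ?_, ?_⟩
    · have e : ∀ i, cnt (Set.range β) (fun x => col (Function.invFun β x)) i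
          = cnt Set.univ (col (p := p) (d := d)) i := by
        intro i
        unfold cnt
        rw [← Set.ncard_image_of_injective _ hinj]
        congr 1
        ext x
        simp only [Set.mem_range, Set.mem_ofPred_eq, Set.mem_univ, true_and, Set.mem_image]
        constructor
        · rintro ⟨⟨v, rfl⟩, h⟩
          exact ⟨v, by rwa [hleft] at h, rfl⟩
        · rintro ⟨v, h, rfl⟩
          exact ⟨⟨v, rfl⟩, by rwa [hleft]⟩
      rw [e, e, e]
      exact col_counts
    · rintro σ k hk hσ hnorm hB hc x ⟨v, rfl⟩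
      let f : (Fin (d + 1) → ZMod p) → (Fin (d + 1) → ZMod p) :=
        fun v => Function.invFun β (σ (β v))
      have hf : ∀ v, β (f v) = σ (β v) := fun v => Function.invFun_eq (hB _ ⟨v, rfl⟩)
      have hfinj : Function.Injective f := by
        intro u w h
        apply hinj
        apply σ.injective
        rw [← hf, ← hf, h]
      let τ : Equiv.Perm (Fin (d + 1) → ZMod p) :=
        Equiv.ofBijective f (Finite.injective_iff_bijective.1 hfinj)
      have hτ : ∀ v, β (τ v) = σ (β v) := hf
      have hpow : ∀ (m : ℕ) v, β ((τ ^ m) v) = (σ ^ m) (β v) := by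
        intro m
        induction m with
        | zero => intro v; rfl
        | succ m ih =>
          intro v
          rw [pow_succ', pow_succ', Equiv.Perm.mul_apply, Equiv.Perm.mul_apply, hτ, ih]
      have := rigid τ hk (by
          ext1 v
          apply hinj
          rw [hpow, hσ]
          rfl)
        (by
          intro u
          obtain ⟨h, hh⟩ := h1 u
          obtain ⟨h', hh'⟩ := hnorm h
          obtain ⟨u', hu'⟩ := h2 h'
          refine ⟨u', fun w => hinj ?_⟩
          rw [hτ, hh, hh', ← hτ, hu'])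
        (by
          intro u
          have h3 := hc _ ⟨u, rfl⟩
          simp only at h3
          rwa [← hτ, hleft, hleft] at h3) v
      rw [← hτ, this]

/-- `i` is the distinguished colour of the count vector `n`. -/
def Special (n : Fin 3 → ℕ) (i : Fin 3) : Prop :=
  (∀ j, j ≠ i → n j < n i) ∨ ((∀ j, j ≠ i → n i < n j) ∧ ∀ j k, j ≠ i → k ≠ i → n j = n k)

lemma special_iff (n : Fin 3 → ℕ) :
    (Special n 0 ↔ (n 1 < n 0 ∧ n 2 < n 0) ∨ (n 0 < n 1 ∧ n 1 = n 2)) ∧
    (Special n 1 ↔ (n 0 < n 1 ∧ n 2 < n 1) ∨ (n 1 < n 0 ∧ n 0 = n 2)) ∧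
    (Special n 2 ↔ (n 0 < n 2 ∧ n 1 < n 2) ∨ (n 2 < n 0 ∧ n 0 = n 1)) := by
  simp only [Special, Fin.forall_fin_succ]
  simp
  omega

lemma special_unique {n : Fin 3 → ℕ} {i j : Fin 3} (hi : Special n i) (hj : Special n j) :
    i = j := by
  obtain ⟨h0, h1, h2⟩ := special_iff n
  fin_cases i <;> fin_cases j <;>
    simp only [Fin.zero_eta, Fin.mk_one, Fin.reduceFinMk, h0, h1, h2] at hi hj ⊢ <;>
    omega

lemma special_exists {n : Fin 3 → ℕ} (h : ¬ (n 0 = n 1 ∧ n 1 = n 2)) : ∃ i, Special n i := by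
  obtain ⟨h0, h1, h2⟩ := special_iff n
  by_contra hno
  push Not at hno
  have a0 := hno 0
  have a1 := hno 1
  have a2 := hno 2
  rw [h0] at a0
  rw [h1] at a1
  rw [h2] at a2
  omega

lemma special_perm {n : Fin 3 → ℕ} {i : Fin 3} (hi : Special n i) (π : Equiv.Perm (Fin 3)) :
    Special (fun j => n (π.symm j)) (π i) := by
  have hne : ∀ j, j ≠ π i → π.symm j ≠ i := fun j hj h => hj (by rw [← h]; simp)
  rcases hi with h | ⟨h1, h2⟩
  · left
    intro j hj
    simpa using h _ (hne j hj)
  · right
    refine ⟨fun j hj => ?_, fun j k hj hk => h2 _ _ (hne j hj) (hne k hk)⟩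
    simpa using h1 _ (hne j hj)

lemma exists_elem_ab {G Ω : Type*} [Group G] [Group.IsSolvable G] [Finite Ω]
    (φ : G →* Equiv.Perm Ω) (hφ : ∃ g, φ g ≠ 1) :
    ∃ p : ℕ, p.Prime ∧ ∃ H : Subgroup (Equiv.Perm Ω), (∀ a b : H, a * b = b * a) ∧
      (∀ a : H, a ^ p = 1) ∧ (∀ g : G, ∀ h ∈ H, φ g * h * (φ g)⁻¹ ∈ H) ∧ ∃ h ∈ H, h ≠ 1 := by
  classical
  have hex : ∃ k, (derivedSeries G k).map φ = ⊥ := by
    obtain ⟨k, hk⟩ := (inferInstance : Group.IsSolvable G).solvable
    exact ⟨k, by rw [hk, Subgroup.map_bot]⟩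
  have hk := Nat.find_spec hex
  have hk0 : Nat.find hex ≠ 0 := by
    intro h0
    rw [h0, derivedSeries_zero] at hk
    obtain ⟨g, hg⟩ := hφ
    exact hg (Subgroup.mem_bot.1 (hk ▸ Subgroup.mem_map_of_mem φ (Subgroup.mem_top g)))
  obtain ⟨j, hj⟩ := Nat.exists_eq_succ_of_ne_zero hk0
  have hM : (derivedSeries G j).map φ ≠ ⊥ := Nat.find_min hex (by omega)
  rw [hj, Nat.succ_eq_add_one, derivedSeries_succ, Subgroup.map_commutator] at hk
  set M := (derivedSeries G j).map φ with hMdef
  have hcomm : ∀ a ∈ M, ∀ b ∈ M, Commute a b := by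
    intro a ha b hb
    have := Subgroup.commutator_mem_commutator ha hb
    rw [hk, Subgroup.mem_bot] at this
    exact commutatorElement_eq_one_iff_commute.1 this
  obtain ⟨m, hm, hm1⟩ : ∃ m ∈ M, m ≠ 1 := by
    by_contra h
    push Not at h
    exact hM ((Subgroup.eq_bot_iff_forall M).2 h)
  have ho : orderOf m ≠ 1 := fun h => hm1 (orderOf_eq_one_iff.1 h)
  obtain ⟨p, hp, q, hq⟩ := Nat.exists_prime_and_dvd ho
  have hopos : 0 < orderOf m := orderOf_pos m
  let H : Subgroup (Equiv.Perm Ω) :=
    { carrier := {a | a ∈ M ∧ a ^ p = 1}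
      mul_mem' := by
        rintro a b ⟨ha, ha'⟩ ⟨hb, hb'⟩
        exact ⟨M.mul_mem ha hb, by rw [(hcomm a ha b hb).mul_pow, ha', hb', mul_one]⟩
      one_mem' := ⟨M.one_mem, one_pow _⟩
      inv_mem' := by
        rintro a ⟨ha, ha'⟩
        exact ⟨M.inv_mem ha, by rw [inv_pow, ha', inv_one]⟩ }
  refine ⟨p, hp, H, fun a b => Subtype.ext (hcomm a a.2.1 b b.2.1).eq,
    fun a => Subtype.ext a.2.2, ?_, m ^ q, ⟨M.pow_mem hm q, ?_⟩, ?_⟩
  · rintro g h ⟨⟨a, ha, rfl⟩, hh⟩
    refine ⟨⟨g * a * g⁻¹, (derivedSeries_normal G j).conj_mem a ha g, by simp⟩, ?_⟩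
    rw [conj_pow, hh, mul_one, mul_inv_cancel]
  · rw [← pow_mul, mul_comm, ← hq, pow_orderOf_eq_one]
  · intro h
    have h1 := orderOf_dvd_of_pow_eq_one h
    have hq0 : 0 < q := Nat.pos_of_ne_zero (by rintro rfl; omega)
    have h2 := Nat.le_of_dvd hq0 h1
    have h3 := hp.two_le
    nlinarith

universe u

theorem colouring {G : Type*} [Group G] [Group.IsSolvable G] :
    ∀ (n : ℕ) (Ω : Type u) [Finite Ω] (φ : G →* Equiv.Perm Ω), Nat.card Ω ≤ n →
      ∃ γ : Ω → Fin 3, ∀ (g : G) (k : ℕ), Odd k → g ^ k = 1 → (∀ ω, γ (φ g ω) = γ ω) →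
        φ g = 1 := by
  intro n
  induction n with
  | zero =>
    intro Ω _ φ h
    have : IsEmpty Ω := by
      rcases Nat.card_eq_zero.1 (Nat.le_zero.1 h) with h | h
      · exact h
      · exact absurd ‹Finite Ω› h.not_finite
    exact ⟨fun _ => 0, fun g _ _ _ _ => Subsingleton.elim _ _⟩
  | succ n ih =>
    intro Ω _ φ hcard
    by_cases hφ : ∃ g, φ g ≠ 1
    swap
    · push Not at hφ
      exact ⟨fun _ => 0, fun g _ _ _ _ => hφ g⟩
    obtain ⟨p, hp, H, hcomm, hexp, hnorm, h₀, hh₀, hh₁⟩ := exists_elem_ab φ hφ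
    have : Fact p.Prime := ⟨hp⟩
    have hnorm' : ∀ (g : G) (h : H), ∃ h' : H, ∀ x, φ g (h • x) = h' • φ g x := by
      intro g h
      refine ⟨⟨φ g * h * (φ g)⁻¹, hnorm g h h.2⟩, fun x => ?_⟩
      show φ g ((h : Equiv.Perm Ω) x) = (φ g * h * (φ g)⁻¹) (φ g x)
      simp
    let Q := orbitRel.Quotient H Ω
    let mk : Ω → Q := Quotient.mk (orbitRel H Ω)
    have hmk : ∀ x y, mk x = mk y ↔ x ∈ orbit H y := fun x y => Quotient.eq
    have hrel : ∀ (g : G) x y, x ∈ orbit H y → φ g x ∈ orbit H (φ g y) := by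
      rintro g x y ⟨h, rfl⟩
      obtain ⟨h', hh'⟩ := hnorm' g h
      exact ⟨h', (hh' y).symm⟩
    let act : G → Q → Q := fun g => Quotient.map (φ g) (hrel g)
    have hact : ∀ g x, act g (mk x) = mk (φ g x) := fun _ _ => rfl
    have hsurj : Function.Surjective mk := Quotient.mk_surjective
    let _ : MulAction G Q :=
      { smul := act
        one_smul := by
          intro q
          obtain ⟨x, rfl⟩ := hsurj q
          show act 1 (mk x) = mk x
          rw [hact, map_one]
          rfl
        mul_smul := by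
          intro a b q
          obtain ⟨x, rfl⟩ := hsurj q
          show act (a * b) (mk x) = act a (act b (mk x))
          rw [hact, hact, hact, map_mul]
          rfl }
    have hlt : Nat.card Q ≤ n := by
      have h1 : ¬ Function.Injective mk := by
        intro hinj
        apply hh₁
        ext x
        exact hinj ((hmk _ _).2 ⟨⟨h₀, hh₀⟩, rfl⟩)
      have := Fintype.ofFinite Ω
      have := Fintype.ofFinite Q
      have h2 := Fintype.card_lt_of_surjective_not_injective mk hsurj h1
      rw [← Nat.card_eq_fintype_card, ← Nat.card_eq_fintype_card] at h2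
      omega
    obtain ⟨δ, hδ⟩ := ih Q (toPermHom G Q) hlt
    have hblock : ∀ q : Q, ∃ c : Ω → Fin 3, Special (cnt {x | mk x = q} c) (δ q) ∧
        ∀ (σ : Equiv.Perm Ω) (k : ℕ), Odd k → σ ^ k = 1 →
        (∀ h : H, ∃ h' : H, ∀ x, σ (h • x) = h' • σ x) →
        (∀ x, mk x = q → mk (σ x) = q) → (∀ x, mk x = q → c (σ x) = c x) →
        ∀ x, mk x = q → σ x = x := by
      intro q
      obtain ⟨x₀, rfl⟩ := hsurj q
      obtain ⟨c, hc1, hc2⟩ := block hcomm hexp x₀
      obtain ⟨i, hi⟩ := special_exists hc1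
      have horb : {x | mk x = mk x₀} = orbit H x₀ := Set.ext fun x => hmk x x₀
      let π : Equiv.Perm (Fin 3) := Equiv.swap i (δ (mk x₀))
      refine ⟨fun x => π (c x), ?_, ?_⟩
      · have h1 := special_perm hi π
        have e : π i = δ (mk x₀) := Equiv.swap_apply_left _ _
        rw [e] at h1
        convert h1 using 2 with j
        unfold cnt
        rw [horb]
        congr 1
        ext x
        simp only [Set.mem_ofPred_eq, Equiv.eq_symm_apply]
      · intro σ k hk hσ h1 h2 h3 x hx
        exact hc2 σ k hk hσ h1 (fun y hy => (hmk _ _).1 (h2 y ((hmk _ _).2 hy)))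
          (fun y hy => π.injective (h3 y ((hmk _ _).2 hy))) x ((hmk _ _).1 hx)
    choose c hc1 hc2 using hblock
    refine ⟨fun x => c (mk x) x, fun g k hk hg hγ => ?_⟩
    have hfix : toPermHom G Q g = 1 := by
      refine hδ g k hk hg fun q => ?_
      show δ (act g q) = δ q
      refine special_unique (hc1 (act g q)) ?_
      suffices e : cnt {x | mk x = act g q} (c (act g q)) = cnt {x | mk x = q} (c q) by
        rw [e]
        exact hc1 q
      funext j
      unfold cnt
      rw [← Set.ncard_image_of_injective {x | x ∈ {x | mk x = q} ∧ c q x = j} (φ g).injective]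
      congr 1
      ext y
      simp only [Set.mem_ofPred_eq, Set.mem_image]
      constructor
      · rintro ⟨h1, h2⟩
        obtain ⟨x, rfl⟩ := (φ g).surjective y
        have h3 : mk x = q := by
          have h4 : g • mk x = g • q := h1
          exact MulAction.injective g h4
        refine ⟨x, ⟨h3, ?_⟩, rfl⟩
        have h5 := hγ x
        simp only at h5
        rw [← h3, ← h5, h1, h2]
      · rintro ⟨x, ⟨h1, h2⟩, rfl⟩
        have h3 : mk (φ g x) = act g q := by rw [← h1, hact]
        refine ⟨h3, ?_⟩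
        have h5 := hγ x
        simp only at h5
        rw [← h3, h5, h1, h2]
    have hfix' : ∀ x, mk (φ g x) = mk x := fun x => by
      have := congrArg (fun σ : Equiv.Perm Q => σ (mk x)) hfix
      exact this
    ext x
    refine hc2 (mk x) (φ g) k hk (by rw [← map_pow, hg, map_one]) (hnorm' g)
      (fun y hy => (hfix' y).trans hy) (fun y hy => ?_) x rfl
    have h5 := hγ y
    simp only at h5
    rw [hfix', hy] at h5
    exact h5

theorem main {Ω : Type*} [Finite Ω] (G : Subgroup (Equiv.Perm Ω)) [Group.IsSolvable G] :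
    ∃ γ : Ω → Fin 3, ∃ k : ℕ,
      Nat.card {g : Equiv.Perm Ω // g ∈ G ∧ ∀ ω, γ (g ω) = γ ω} = 2 ^ k := by
  obtain ⟨γ, hγ⟩ := colouring (G := G) _ Ω G.subtype le_rfl
  refine ⟨γ, ?_⟩
  let K : Subgroup (Equiv.Perm Ω) :=
    { carrier := {g | g ∈ G ∧ ∀ ω, γ (g ω) = γ ω}
      mul_mem' := by
        rintro a b ⟨ha, ha'⟩ ⟨hb, hb'⟩
        exact ⟨G.mul_mem ha hb, fun ω => by rw [Equiv.Perm.mul_apply, ha', hb']⟩
      one_mem' := ⟨G.one_mem, fun _ => rfl⟩
      inv_mem' := by
        rintro a ⟨ha, ha'⟩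
        refine ⟨G.inv_mem ha, fun ω => ?_⟩
        rw [← ha' (a⁻¹ ω)]
        simp }
  have hK : IsPGroup 2 K := by
    intro g
    obtain ⟨e, m, hm, he⟩ := Nat.exists_eq_two_pow_mul_odd (orderOf_pos g).ne'
    refine ⟨e, ?_⟩
    have h1 : (g ^ 2 ^ e) ^ m = 1 := by rw [← pow_mul, ← he, pow_orderOf_eq_one]
    have h2 := hγ ⟨(g ^ 2 ^ e : K), (g ^ 2 ^ e).2.1⟩ m hm
      (Subtype.ext (by simpa using congrArg Subtype.val h1)) (g ^ 2 ^ e).2.2
    exact Subtype.ext h2
  exact (IsPGroup.iff_card (G := K)).1 hK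

end Pool.Agent.Work.MP_2fb0b3_al
end
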